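import Mathlib

set_option autoImplicit false

namespace Pool.Agent.H313VA

/-- A vector addition system with states over the alphabet `A`. -/
structure VASS (A : Type) where
  /-- dimension -/
  d : ℕ
  /-- states -/
  Q : Type
  finQ : Finite Q
  /-- transitions -/
  T : Set (Q × A × (Fin d → ℤ) × Q)
  finT : T.Finite
  /-- initial state -/
  q₀ : Q
  /-- initial vector -/
  c₀ : Fin d → ℕ
  /-- accepting states -/
  F : Set Q

variable {A : Type} (V : VASS A)

/-- transitions -/
abbrev VASS.Tr := V.Q × A × (Fin V.d → ℤ) × V.Q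

/-- configurations -/
abbrev VASS.Cfg := V.Q × (Fin V.d → ℕ)

/-- `V.Run p ρ r`: the transitions of `ρ` can be fired one after the other from `p` and lead to `r` -/
def VASS.Run : V.Cfg → List V.Tr → V.Cfg → Prop
  | p, [], r => p = r
  | p, t :: ρ, r => t ∈ V.T ∧ t.1 = p.1 ∧
      ∃ c : Fin V.d → ℕ, (∀ i, (c i : ℤ) = p.2 i + t.2.2.1 i) ∧ VASS.Run (t.2.2.2, c) ρ r

/-- the word read by a sequence of transitions -/
def VASS.lab (ρ : List V.Tr) : List A := ρ.map fun t => t.2.1

/-- accepting runs on a word -/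
def VASS.Acc (w : List A) : Set (List V.Tr) :=
  {ρ | V.lab ρ = w ∧ ∃ r, V.Run (V.q₀, V.c₀) ρ r ∧ r.1 ∈ V.F}

/-- the recognised language -/
def VASS.lang : Set (List A) := {w | (V.Acc w).Nonempty}

/-- at most `n` accepting runs on every word -/
def VASS.Ambiguous (n : ℕ) : Prop := ∀ w, (V.Acc w).encard ≤ n

variable {V}

theorem run_append {p r : V.Cfg} {ρ σ : List V.Tr} :
    V.Run p (ρ ++ σ) r ↔ ∃ q, V.Run p ρ q ∧ V.Run q σ r := by
  induction ρ generalizing p with
  | nil => simp [VASS.Run]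
  | cons t ρ ih =>
    simp only [List.cons_append, VASS.Run, ih]
    constructor
    · rintro ⟨h1, h2, c, h3, q, h4, h5⟩
      exact ⟨q, ⟨h1, h2, c, h3, h4⟩, h5⟩
    · rintro ⟨q, ⟨h1, h2, c, h3, h4⟩, h5⟩
      exact ⟨h1, h2, c, h3, q, h4, h5⟩

theorem run_det {p r r' : V.Cfg} {ρ : List V.Tr} (h : V.Run p ρ r) (h' : V.Run p ρ r') : r = r' := by
  induction ρ generalizing p with
  | nil => exact h.symm.trans h'
  | cons t ρ ih =>
    obtain ⟨_, _, c, h3, h4⟩ := h
    obtain ⟨_, _, c', h3', h4'⟩ := h'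
    have : c = c' := by
      funext i
      have := (h3 i).trans (h3' i).symm
      exact_mod_cast this
    subst this
    exact ih h4 h4'

/-- shift of a configuration -/
def sh (p : V.Cfg) (e : Fin V.d → ℕ) : V.Cfg := (p.1, p.2 + e)

theorem run_shift {p r : V.Cfg} {ρ : List V.Tr} (h : V.Run p ρ r) (e : Fin V.d → ℕ) :
    V.Run (sh p e) ρ (sh r e) := by
  induction ρ generalizing p with
  | nil => rw [VASS.Run] at h ⊢; rw [h]
  | cons t ρ ih =>
    obtain ⟨h1, h2, c, h3, h4⟩ := h
    refine ⟨h1, h2, c + e, fun i => ?_, ih h4⟩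
    have := h3 i
    simp only [sh, Pi.add_apply, Nat.cast_add] at this ⊢
    rw [this]; ring

theorem sh_zero (p : V.Cfg) : sh p 0 = p := by simp [sh]

theorem sh_sh (p : V.Cfg) (e f : Fin V.d → ℕ) : sh (sh p e) f = sh p (e + f) := by
  simp [sh, add_assoc]

/-- the run contains a cycle with nonnegative effect -/
def Pump (p : V.Cfg) (ρ : List V.Tr) (r : V.Cfg) : Prop :=
  ∃ α γ β : List V.Tr, ∃ (q : V.Cfg) (e : Fin V.d → ℕ), ρ = α ++ (γ ++ β) ∧ γ ≠ [] ∧
    V.Run p α q ∧ V.Run q γ (sh q e) ∧ V.Run (sh q e) β r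

theorem pump_extend {p q r : V.Cfg} {ρ σ : List V.Tr} (h : Pump p ρ q) (h' : V.Run q σ r) :
    Pump p (ρ ++ σ) r := by
  obtain ⟨α, γ, β, q', e, h1, h2, h3, h4, h5⟩ := h
  exact ⟨α, γ, β ++ σ, q', e, by rw [h1]; simp, h2, h3, h4, run_append.2 ⟨q, h5, h'⟩⟩

theorem pump_shift {p r : V.Cfg} {ρ : List V.Tr} (h : Pump p ρ r) (f : Fin V.d → ℕ) :
    Pump (sh p f) ρ (sh r f) := by
  obtain ⟨α, γ, β, q', e, h1, h2, h3, h4, h5⟩ := h
  refine ⟨α, γ, β, sh q' f, e, h1, h2, run_shift h3 f, ?_, ?_⟩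
  · have := run_shift h4 f
    rwa [sh_sh, add_comm e f, ← sh_sh] at this
  · have := run_shift h5 f
    rwa [sh_sh, add_comm e f, ← sh_sh] at this

theorem run_iter {q : V.Cfg} {γ : List V.Tr} {e : Fin V.d → ℕ} (h : V.Run q γ (sh q e)) (t : ℕ) :
    V.Run q (List.replicate t γ).flatten (sh q (t • e)) := by
  induction t with
  | zero => simp [VASS.Run, sh_zero]
  | succ t ih =>
    rw [List.replicate_succ', List.flatten_append, run_append]
    refine ⟨_, ih, ?_⟩
    have := run_shift h (t • e)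
    rw [sh_sh, show e + t • e = (t + 1) • e from by rw [add_comm, succ_nsmul]] at this
    simpa using this

/-- pumping a block to a prescribed length -/
theorem pump_to {p r : V.Cfg} {ρ : List V.Tr} (h : Pump p ρ r) (x : A)
    (hx : V.lab ρ = List.replicate ρ.length x) (L : ℕ) (hL : ρ.length ≤ L)
    (hd : ρ.length.factorial ∣ L - ρ.length) :
    ∃ (ρ' : List V.Tr) (f : Fin V.d → ℕ), V.Run p ρ' (sh r f) ∧ V.lab ρ' = List.replicate L x ∧
      ρ'.length = L ∧ Pump p ρ' (sh r f) := by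
  obtain ⟨α, γ, β, q, e, h1, h2, h3, h4, h5⟩ := h
  have hg : 0 < γ.length := List.length_pos_iff.2 h2
  have hlen : ρ.length = α.length + (γ.length + β.length) := by rw [h1]; simp
  have hdvd : γ.length ∣ L - ρ.length :=
    (Nat.dvd_factorial hg (by omega)).trans hd
  obtain ⟨t, ht⟩ := hdvd
  have hr : V.Run q (γ ++ (List.replicate t γ).flatten) (sh (sh q e) (t • e)) := by
    rw [run_append]
    refine ⟨_, h4, ?_⟩
    have := run_shift (run_iter h4 t) e
    rwa [sh_sh, add_comm, ← sh_sh] at this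
  have hrun : V.Run p (α ++ (γ ++ ((List.replicate t γ).flatten ++ β))) (sh r (t • e)) := by
    rw [run_append]
    refine ⟨q, h3, ?_⟩
    rw [← List.append_assoc, run_append]
    exact ⟨_, hr, run_shift h5 _⟩
  have hlen' : (α ++ (γ ++ ((List.replicate t γ).flatten ++ β))).length = L := by
    simp only [List.length_append, List.length_flatten, List.map_replicate, List.sum_replicate,
      smul_eq_mul]
    have : t * γ.length = L - ρ.length := by rw [ht, mul_comm]
    omega
  refine ⟨α ++ (γ ++ ((List.replicate t γ).flatten ++ β)), t • e, hrun, ?_, hlen', ?_⟩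
  · rw [← hlen', List.eq_replicate_iff]
    refine ⟨by simp [VASS.lab], ?_⟩
    intro b hb
    have hall : ∀ b ∈ V.lab ρ, b = x := by
      intro b hb; rw [hx] at hb; exact List.eq_of_mem_replicate hb
    apply hall
    rw [h1]
    simp only [VASS.lab, List.map_append, List.mem_append, List.mem_map, List.mem_flatten,
      List.mem_replicate] at hb ⊢
    rcases hb with hb | hb | ⟨a, ⟨l, ⟨_, rfl⟩, ha⟩, rfl⟩ | hb
    · exact Or.inl hb
    · exact Or.inr (Or.inl hb)
    · exact Or.inr (Or.inl ⟨a, ha, rfl⟩)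
    · exact Or.inr (Or.inr hb)
  · refine ⟨α, γ, (List.replicate t γ).flatten ++ β, q, e, rfl, h2, h3, h4, ?_⟩
    rw [run_append]
    have := run_shift (run_iter h4 t) e
    rw [sh_sh, add_comm, ← sh_sh] at this
    exact ⟨_, this, run_shift h5 _⟩

/-- configurations reachable in exactly `m` steps from a finite set form a finite set -/
theorem reach_finite (S : Set V.Cfg) (hS : S.Finite) (m : ℕ) :
    {r | ∃ q ∈ S, ∃ ρ : List V.Tr, ρ.length = m ∧ V.Run q ρ r}.Finite := by
  induction m generalizing S with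
  | zero =>
    apply hS.subset
    rintro r ⟨q, hq, ρ, h1, h2⟩
    rw [List.length_eq_zero_iff] at h1
    subst h1
    rw [VASS.Run] at h2
    exact h2 ▸ hq
  | succ m ih =>
    have h1 : {r : V.Cfg | ∃ q ∈ S, ∃ t ∈ V.T, V.Run q [t] r}.Finite := by
      have : {r : V.Cfg | ∃ q ∈ S, ∃ t ∈ V.T, V.Run q [t] r} =
          ⋃ q ∈ S, ⋃ t ∈ V.T, {r | V.Run q [t] r} := by
        ext r; simp
      rw [this]
      apply hS.biUnion
      intro q _
      apply V.finT.biUnion
      intro t _
      apply Set.Subsingleton.finite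
      intro r hr r' hr'
      exact run_det hr hr'
    apply (ih _ h1).subset
    rintro r ⟨q, hq, ρ, h2, h3⟩
    cases ρ with
    | nil => simp at h2
    | cons t ρ =>
      rw [← List.singleton_append, run_append] at h3
      obtain ⟨q', h4, h5⟩ := h3
      exact ⟨q', ⟨q, hq, t, h4.1, h4⟩, ρ, by simpa using h2, h5⟩

/-- long runs contain a nonnegative cycle -/
theorem threshold (p : V.Cfg) : ∃ B : ℕ, ∀ (ρ : List V.Tr) (r : V.Cfg), V.Run p ρ r → B ≤ ρ.length →
    Pump p ρ r := by
  by_contra hcon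
  push Not at hcon
  let Inf : List V.Tr → Prop := fun ρ => ∀ B, ∃ (σ : List V.Tr) (r : V.Cfg), B ≤ σ.length ∧
    V.Run p (ρ ++ σ) r ∧ ¬ Pump p (ρ ++ σ) r
  have h0 : Inf [] := by
    intro B
    obtain ⟨ρ, r, h1, h2, h3⟩ := hcon B
    exact ⟨ρ, r, h2, by simpa using h1, by simpa using h3⟩
  have hstep : ∀ ρ, Inf ρ → ∃ t, Inf (ρ ++ [t]) := by
    intro ρ hρ
    by_contra hno
    push Not at hno
    have h1 : ∀ t, ∃ B, ∀ (σ : List V.Tr) (r : V.Cfg), B ≤ σ.length → V.Run p (ρ ++ [t] ++ σ) r →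
        Pump p (ρ ++ [t] ++ σ) r := by
      intro t
      have := hno t
      simp only [Inf] at this
      push Not at this
      exact this
    choose B hB using h1
    obtain ⟨M, hM⟩ : ∃ M, ∀ t ∈ V.T, B t ≤ M := by
      obtain ⟨M, hM⟩ := (V.finT.image B).bddAbove
      exact ⟨M, fun t ht => hM ⟨t, ht, rfl⟩⟩
    obtain ⟨σ, r, h2, h3, h4⟩ := hρ (M + 1)
    cases σ with
    | nil => simp at h2
    | cons t σ =>
      have ht : t ∈ V.T := by
        rw [run_append] at h3
        obtain ⟨q, _, h5⟩ := h3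
        exact h5.1
      have e : ρ ++ t :: σ = ρ ++ [t] ++ σ := by simp
      rw [e] at h3 h4
      apply h4
      apply hB t σ r _ h3
      have := hM t ht
      simp only [List.length_cons] at h2
      omega
  haveI : Nonempty V.Tr := by
    obtain ⟨t, _⟩ := hstep [] h0
    exact ⟨t⟩
  choose! nx hnx using hstep
  -- the infinite branch
  let L : ℕ → List V.Tr := fun n => Nat.rec [] (fun _ ρ => ρ ++ [nx ρ]) n
  have hL : ∀ n, Inf (L n) := by
    intro n
    induction n with
    | zero => exact h0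
    | succ n ih => exact hnx _ ih
  have hLs : ∀ n, L (n + 1) = L n ++ [nx (L n)] := fun n => rfl
  have hmono : ∀ m n, m ≤ n → ∃ σ, L n = L m ++ σ ∧ σ.length = n - m := by
    intro m n hmn
    induction n, hmn using Nat.le_induction with
    | base => exact ⟨[], by simp, by simp⟩
    | succ n hmn ih =>
      obtain ⟨σ, h1, h2⟩ := ih
      refine ⟨σ ++ [nx (L n)], ?_, by simp [h2]; omega⟩
      rw [hLs, h1, List.append_assoc, ← h1]
  have hcfg : ∀ n, ∃ r, V.Run p (L n) r ∧ ¬ Pump p (L n) r := by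
    intro n
    obtain ⟨σ, r, _, h2, h3⟩ := hL n 0
    rw [run_append] at h2
    obtain ⟨q, h4, h5⟩ := h2
    exact ⟨q, h4, fun h => h3 (pump_extend h h5)⟩
  choose C hC1 hC2 using hcfg
  have hpwo : (Set.univ : Set (Fin V.d → ℕ)).IsPWO := by
    have := Set.IsPWO.pi (ι := Fin V.d) (α := fun _ => ℕ) (s := fun _ => Set.univ)
      (fun _ => Set.IsPWO.of_linearOrder _)
    rwa [Set.pi_univ] at this
  obtain ⟨g, hg⟩ := hpwo.exists_monotone_subseq (f := fun n => (C n).2) (fun _ => Set.mem_univ _)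
  haveI := V.finQ
  obtain ⟨a, b, hab, hst⟩ := Finite.exists_ne_map_eq_of_infinite (fun n => (C (g n)).1)
  wlog hlt : a < b generalizing a b with H
  · exact H b a hab.symm hst.symm (lt_of_le_of_ne (not_lt.1 hlt) hab.symm)
  have hgl : g a < g b := g.lt_iff_lt.2 hlt
  have hle : (C (g a)).2 ≤ (C (g b)).2 := hg hlt.le
  obtain ⟨σ, h1, h2⟩ := hmono (g a) (g b) hgl.le
  have hrb := hC1 (g b)
  rw [h1, run_append] at hrb
  obtain ⟨q, h3, h4⟩ := hrb
  have hq := run_det h3 (hC1 (g a))
  subst hq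
  apply hC2 (g b)
  refine ⟨L (g a), σ, [], C (g a), (C (g b)).2 - (C (g a)).2, by simpa using h1, ?_, h3, ?_, ?_⟩
  · intro h0; rw [h0] at h2; simp at h2; omega
  · have : sh (C (g a)) ((C (g b)).2 - (C (g a)).2) = C (g b) := by
      apply Prod.ext
      · exact hst
      · funext i
        have hi : (C (g a)).2 i ≤ (C (g b)).2 i := hle i
        change (C (g a)).2 i + ((C (g b)).2 i - (C (g a)).2 i) = (C (g b)).2 i
        omega
    rw [this]; exact h4
  · have : sh (C (g a)) ((C (g b)).2 - (C (g a)).2) = C (g b) := by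
      apply Prod.ext
      · exact hst
      · funext i
        have hi : (C (g a)).2 i ≤ (C (g b)).2 i := hle i
        change (C (g a)).2 i + ((C (g b)).2 i - (C (g a)).2 i) = (C (g b)).2 i
        omega
    rw [this, VASS.Run]

theorem threshold_set (S : Set V.Cfg) (hS : S.Finite) :
    ∃ B : ℕ, ∀ p ∈ S, ∀ (ρ : List V.Tr) (r : V.Cfg), V.Run p ρ r → B ≤ ρ.length → Pump p ρ r := by
  choose B hB using threshold (V := V)
  obtain ⟨M, hM⟩ := (hS.image B).bddAbove
  exact ⟨M, fun p hp ρ r h1 h2 => hB p ρ r h1 ((hM ⟨p, hp, rfl⟩).trans h2)⟩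

end Pool.Agent.H313VA
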