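import Mathlib
import Pool.Agent.H313VA.Basic

set_option autoImplicit false

namespace Pool.Agent.H313VA

variable {A : Type} {V : VASS A}

/-- the word with blocks `ℓ x ^ (c x)`, `x < m` -/
def W (ℓ : ℕ → A) (c : ℕ → ℕ) (m : ℕ) : List A :=
  (List.range m).flatMap fun x => List.replicate (c x) (ℓ x)

theorem W_succ (ℓ : ℕ → A) (c : ℕ → ℕ) (m : ℕ) :
    W ℓ c (m + 1) = W ℓ c m ++ List.replicate (c m) (ℓ m) := by
  simp [W, List.range_succ]

theorem W_congr (ℓ : ℕ → A) (c c' : ℕ → ℕ) (m : ℕ) (h : ∀ x < m, c x = c' x) :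
    W ℓ c m = W ℓ c' m := by
  induction m with
  | zero => rfl
  | succ m ih =>
    rw [W_succ, W_succ, ih (fun x hx => h x (by omega)), h m (by omega)]

/-- a run cut into blocks -/
def Blk (ℓ : ℕ → A) (c : ℕ → ℕ) (m : ℕ) (P : ℕ → V.Cfg) (R : ℕ → List V.Tr) : Prop :=
  ∀ x < m, V.Run (P x) (R x) (P (x + 1)) ∧ V.lab (R x) = List.replicate (c x) (ℓ x)

/-- the whole run -/
def cat (R : ℕ → List V.Tr) (m : ℕ) : List V.Tr := (List.range m).flatMap R

theorem cat_succ (R : ℕ → List V.Tr) (m : ℕ) : cat R (m + 1) = cat R m ++ R m := by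
  simp [cat, List.range_succ]

theorem cat_congr (R R' : ℕ → List V.Tr) (m : ℕ) (h : ∀ x < m, R x = R' x) :
    cat R m = cat R' m := by
  induction m with
  | zero => rfl
  | succ m ih =>
    rw [cat_succ, cat_succ, ih (fun x hx => h x (by omega)), h m (by omega)]

theorem lab_append (ρ σ : List V.Tr) : V.lab (ρ ++ σ) = V.lab ρ ++ V.lab σ := by
  simp [VASS.lab]

theorem lab_length (ρ : List V.Tr) : (V.lab ρ).length = ρ.length := by
  simp [VASS.lab]

theorem blk_run {ℓ : ℕ → A} {c : ℕ → ℕ} {m : ℕ} {P : ℕ → V.Cfg} {R : ℕ → List V.Tr}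
    (h : Blk ℓ c m P R) : V.Run (P 0) (cat R m) (P m) ∧ V.lab (cat R m) = W ℓ c m := by
  induction m with
  | zero => exact ⟨rfl, rfl⟩
  | succ m ih =>
    obtain ⟨h1, h2⟩ := ih (fun x hx => h x (by omega))
    obtain ⟨h3, h4⟩ := h m (by omega)
    refine ⟨?_, ?_⟩
    · rw [cat_succ, run_append]; exact ⟨_, h1, h3⟩
    · rw [cat_succ, lab_append, h2, h4, W_succ]

theorem blk_of_run {ℓ : ℕ → A} {c : ℕ → ℕ} (m : ℕ) {p r : V.Cfg} {ρ : List V.Tr}
    (h : V.Run p ρ r) (hl : V.lab ρ = W ℓ c m) :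
    ∃ (P : ℕ → V.Cfg) (R : ℕ → List V.Tr), Blk ℓ c m P R ∧ P 0 = p ∧ P m = r ∧ cat R m = ρ := by
  induction m generalizing ρ r with
  | zero =>
    have : ρ = [] := by
      have := congrArg List.length hl
      rw [lab_length] at this
      simpa [W] using this
    subst this
    exact ⟨fun _ => p, fun _ => [], fun x hx => absurd hx (by omega), rfl, h, rfl⟩
  | succ m ih =>
    rw [W_succ] at hl
    obtain ⟨ρ₁, ρ₂, h1, h2, h3⟩ := List.map_eq_append_iff.1 hl
    subst h1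
    rw [run_append] at h
    obtain ⟨q, h4, h5⟩ := h
    obtain ⟨P, R, h6, h7, h8, h9⟩ := ih h4 h2
    refine ⟨fun x => if x ≤ m then P x else r, fun x => if x < m then R x else ρ₂, ?_, ?_, ?_, ?_⟩
    · intro x hx
      beta_reduce
      by_cases hxm : x < m
      · have := h6 x hxm
        rw [if_pos hxm.le, if_pos hxm, if_pos (by omega)]
        exact this
      · have : x = m := by omega
        subst this
        rw [if_pos le_rfl, if_neg hxm, if_neg (by omega), h8]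
        exact ⟨h5, h3⟩
    · simp [h7]
    · simp
    · rw [cat_succ, if_neg (lt_irrefl m)]
      congr 1
      rw [← h9]
      exact cat_congr _ _ _ fun x hx => if_pos hx

theorem blk_unique {ℓ : ℕ → A} {c : ℕ → ℕ} {m : ℕ} {P P' : ℕ → V.Cfg} {R R' : ℕ → List V.Tr}
    (h : Blk ℓ c m P R) (h' : Blk ℓ c m P' R') (h0 : P 0 = P' 0) (he : cat R m = cat R' m) :
    P m = P' m ∧ ∀ x < m, P x = P' x ∧ R x = R' x := by
  induction m with
  | zero => exact ⟨h0, fun x hx => absurd hx (by omega)⟩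
  | succ m ih =>
    have hlen : (R m).length = (R' m).length := by
      rw [← lab_length, ← lab_length, (h m (by omega)).2, (h' m (by omega)).2]
    rw [cat_succ, cat_succ] at he
    obtain ⟨h1, h2⟩ := List.append_inj' he hlen
    obtain ⟨h3, h4⟩ := ih (fun x hx => h x (by omega)) (fun x hx => h' x (by omega)) h1
    refine ⟨?_, ?_⟩
    · have h5 := (h m (by omega)).1
      have h6 := (h' m (by omega)).1
      rw [h3, h2] at h5
      exact run_det h5 h6
    · intro x hx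
      by_cases hxm : x < m
      · exact h4 x hxm
      · have : x = m := by omega
        subst this
        exact ⟨h3, h2⟩

theorem blk_pump {ℓ : ℕ → A} {c c' : ℕ → ℕ} {m : ℕ} {P : ℕ → V.Cfg} {R : ℕ → List V.Tr}
    (h : Blk ℓ c m P R)
    (hp : ∀ x < m, c' x = c x ∨ (Pump (P x) (R x) (P (x + 1)) ∧ c x ≤ c' x ∧
      (c x).factorial ∣ c' x - c x)) :
    ∃ (P' : ℕ → V.Cfg) (R' : ℕ → List V.Tr), Blk ℓ c' m P' R' ∧ P' 0 = P 0 ∧ (P' m).1 = (P m).1 ∧
      ∀ x < m, Pump (P x) (R x) (P (x + 1)) → Pump (P' x) (R' x) (P' (x + 1)) := by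
  have hex : ∀ x, ∃ (R' : List V.Tr) (f : Fin V.d → ℕ), x < m →
      V.Run (P x) R' (sh (P (x + 1)) f) ∧ V.lab R' = List.replicate (c' x) (ℓ x) ∧
      (Pump (P x) (R x) (P (x + 1)) → Pump (P x) R' (sh (P (x + 1)) f)) := by
    intro x
    by_cases hx : x < m
    · rcases hp x hx with h1 | ⟨h1, h2, h3⟩
      · refine ⟨R x, 0, fun _ => ⟨?_, ?_, ?_⟩⟩
        · rw [sh_zero]; exact (h x hx).1
        · rw [h1]; exact (h x hx).2
        · rw [sh_zero]; exact id
      · have hlab := (h x hx).2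
        have hlen : (R x).length = c x := by
          rw [← lab_length, hlab, List.length_replicate]
        rw [← hlen] at h2 h3 hlab
        obtain ⟨ρ', f, h4, h5, _, h7⟩ := pump_to h1 (ℓ x) hlab (c' x) h2 h3
        exact ⟨ρ', f, fun _ => ⟨h4, h5, fun _ => h7⟩⟩
    · exact ⟨[], 0, fun h => absurd h hx⟩
  choose R' f hR using hex
  refine ⟨fun x => sh (P x) (∑ y ∈ Finset.range x, f y), R', ?_, ?_, rfl, ?_⟩
  · intro x hx
    obtain ⟨h1, h2, _⟩ := hR x hx
    refine ⟨?_, h2⟩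
    have := run_shift h1 (∑ y ∈ Finset.range x, f y)
    rw [sh_sh] at this
    simp only [Finset.sum_range_succ]
    rwa [add_comm (f x)] at this
  · simp [sh_zero]
  · intro x hx hpx
    obtain ⟨_, _, h3⟩ := hR x hx
    have := pump_shift (h3 hpx) (∑ y ∈ Finset.range x, f y)
    rw [sh_sh] at this
    simp only [Finset.sum_range_succ]
    rwa [add_comm (f x)] at this

/-- the big length of an `a`-block -/
def bigA (n m : ℕ) : ℕ := n + n.factorial * (m + m.factorial)

/-- the big length of a `b`-block -/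
def bigB (m : ℕ) : ℕ := m + m.factorial

theorem bigB_le (n m : ℕ) : bigB m ≤ bigA n m := by
  unfold bigA bigB
  have := Nat.factorial_pos n
  nlinarith [Nat.zero_le (m + m.factorial)]

theorem step_exists (V : VASS A) (S : {S : Set V.Cfg // S.Finite}) : ∃ n m : ℕ, n < m ∧
    (∀ p ∈ S.1, ∀ (ρ : List V.Tr) (r : V.Cfg), V.Run p ρ r → ρ.length = n → Pump p ρ r) ∧
    (∀ p ∈ S.1, ∀ (ρ σ : List V.Tr) (q r : V.Cfg), V.Run p ρ q → ρ.length = n → V.Run q σ r →
      σ.length = m → Pump q σ r) := by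
  obtain ⟨n, hn⟩ := threshold_set S.1 S.2
  obtain ⟨m, hm⟩ := threshold_set _ (reach_finite S.1 S.2 n)
  refine ⟨n, max m (n + 1), by omega, fun p hp ρ r h1 h2 => hn p hp ρ r h1 h2.ge, ?_⟩
  intro p hp ρ σ q r h1 h2 h3 h4
  exact hm q ⟨p, hp, ρ, h2, h1⟩ σ r h3 (by omega)

/-- a choice of small and big block lengths that works for the automaton `V` -/
theorem lengths (V : VASS A) (ℓ : ℕ → A) : ∃ n m : ℕ → ℕ, (∀ j, n j < m j) ∧
    ∀ (K : ℕ) (c : ℕ → ℕ) (P : ℕ → V.Cfg) (R : ℕ → List V.Tr), Blk ℓ c (2 * K) P R →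
      P 0 = (V.q₀, V.c₀) →
      (∀ j < K, (c (2 * j) = n j ∧ c (2 * j + 1) = m j) ∨
        (c (2 * j) = bigA (n j) (m j) ∧ c (2 * j + 1) = bigB (m j))) →
      ∀ j < K, (c (2 * j) = n j ∧ c (2 * j + 1) = m j) →
        Pump (P (2 * j)) (R (2 * j)) (P (2 * j + 1)) ∧
        Pump (P (2 * j + 1)) (R (2 * j + 1)) (P (2 * j + 2)) := by
  choose nf mf h1 h2 h3 using step_exists V
  let nxt : {S : Set V.Cfg // S.Finite} → {S : Set V.Cfg // S.Finite} := fun S =>
    ⟨{r | ∃ q ∈ S.1, ∃ ρ : List V.Tr, ρ.length = nf S + mf S ∧ V.Run q ρ r} ∪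
      {r | ∃ q ∈ S.1, ∃ ρ : List V.Tr, ρ.length = bigA (nf S) (mf S) + bigB (mf S) ∧ V.Run q ρ r},
      (reach_finite S.1 S.2 _).union (reach_finite S.1 S.2 _)⟩
  let S : ℕ → {S : Set V.Cfg // S.Finite} := fun j =>
    Nat.rec ⟨{(V.q₀, V.c₀)}, Set.finite_singleton _⟩ (fun _ S => nxt S) j
  have hS : ∀ j, S (j + 1) = nxt (S j) := fun _ => rfl
  refine ⟨fun j => nf (S j), fun j => mf (S j), fun j => h1 _, ?_⟩
  intro K c P R hB hP0 hc
  have hlen : ∀ x < 2 * K, (R x).length = c x := by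
    intro x hx
    rw [← lab_length, (hB x hx).2, List.length_replicate]
  have hmem : ∀ j ≤ K, P (2 * j) ∈ (S j).1 := by
    intro j hj
    induction j with
    | zero => rw [Nat.mul_zero, hP0]; exact Set.mem_singleton _
    | succ j ih =>
      have hj' : j < K := by omega
      have h4 := ih hj'.le
      have hr : V.Run (P (2 * j)) (R (2 * j) ++ R (2 * j + 1)) (P (2 * (j + 1))) :=
        run_append.2 ⟨_, (hB (2 * j) (by omega)).1, (hB (2 * j + 1) (by omega)).1⟩
      have hl : (R (2 * j) ++ R (2 * j + 1)).length = c (2 * j) + c (2 * j + 1) := by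
        rw [List.length_append, hlen _ (by omega), hlen _ (by omega)]
      rw [hS]
      rcases hc j hj' with ⟨h5, h6⟩ | ⟨h5, h6⟩
      · left
        exact ⟨_, h4, _, by rw [hl, h5, h6], hr⟩
      · right
        exact ⟨_, h4, _, by rw [hl, h5, h6], hr⟩
  intro j hj ⟨h5, h6⟩
  have hb1 := (hB (2 * j) (by omega)).1
  have hb2 := (hB (2 * j + 1) (by omega)).1
  have hl1 := hlen (2 * j) (by omega)
  have hl2 := hlen (2 * j + 1) (by omega)
  exact ⟨h2 _ _ (hmem j hj.le) _ _ hb1 (hl1.trans h5),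
    h3 _ _ (hmem j hj.le) _ _ _ _ hb1 (hl1.trans h5) hb2 (hl2.trans h6)⟩

end Pool.Agent.H313VA
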