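import Mathlib
import Pool.Agent.H313VA.Blk

set_option autoImplicit false

namespace Pool.Agent.H313VA

variable {A : Type} {V : VASS A}

/-- block lengths with the pairs `i`, `i'` big and the others small -/
def cT (n m : ℕ → ℕ) (i i' : ℕ) (x : ℕ) : ℕ :=
  if x / 2 = i ∨ x / 2 = i' then
    (if x % 2 = 0 then bigA (n (x / 2)) (m (x / 2)) else bigB (m (x / 2)))
  else (if x % 2 = 0 then n (x / 2) else m (x / 2))

/-- block lengths with all pairs big -/
def cB (n m : ℕ → ℕ) (x : ℕ) : ℕ :=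
  if x % 2 = 0 then bigA (n (x / 2)) (m (x / 2)) else bigB (m (x / 2))

theorem cT_even (n m : ℕ → ℕ) (i i' j : ℕ) :
    cT n m i i' (2 * j) = if j = i ∨ j = i' then bigA (n j) (m j) else n j := by
  have h1 : 2 * j / 2 = j := by omega
  have h2 : 2 * j % 2 = 0 := by omega
  simp [cT, h1, h2]

theorem cT_odd (n m : ℕ → ℕ) (i i' j : ℕ) :
    cT n m i i' (2 * j + 1) = if j = i ∨ j = i' then bigB (m j) else m j := by
  have h1 : (2 * j + 1) / 2 = j := by omega
  have h2 : (2 * j + 1) % 2 = 1 := by omega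
  simp [cT, h1, h2]

theorem cB_even (n m : ℕ → ℕ) (j : ℕ) : cB n m (2 * j) = bigA (n j) (m j) := by
  have h1 : 2 * j / 2 = j := by omega
  have h2 : 2 * j % 2 = 0 := by omega
  simp [cB, h1, h2]

theorem cB_odd (n m : ℕ → ℕ) (j : ℕ) : cB n m (2 * j + 1) = bigB (m j) := by
  have h1 : (2 * j + 1) / 2 = j := by omega
  have h2 : (2 * j + 1) % 2 = 1 := by omega
  simp [cB, h1, h2]

/-- the lower bound on the ambiguity -/
theorem lower (V : VASS A) (ℓ : ℕ → A) (k₁ k₂ n₀ : ℕ) (hamb : V.Ambiguous n₀)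
    (hL : ∀ c : ℕ → ℕ, W ℓ c (2 * (k₁ + k₂)) ∈ V.lang ↔
      (∃ j < k₁, c (2 * j + 1) ≤ c (2 * j)) ∧
      (∃ j < k₂, c (2 * (k₁ + j) + 1) ≤ c (2 * (k₁ + j)))) : k₁ * k₂ ≤ n₀ := by
  obtain ⟨n, m, hnm, hlen⟩ := lengths V ℓ
  -- the runs
  have hrun : ∀ i : Fin k₁ × Fin k₂, ∃ (ρ : List V.Tr) (P : ℕ → V.Cfg) (R : ℕ → List V.Tr),
      ρ ∈ V.Acc (W ℓ (cB n m) (2 * (k₁ + k₂))) ∧
      Blk ℓ (cB n m) (2 * (k₁ + k₂)) P R ∧ P 0 = (V.q₀, V.c₀) ∧ (P (2 * (k₁ + k₂))).1 ∈ V.F ∧
      cat R (2 * (k₁ + k₂)) = ρ ∧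
      ∀ j < k₁ + k₂, j ≠ i.1.1 → j ≠ k₁ + i.2.1 →
        Pump (P (2 * j + 1)) (R (2 * j + 1)) (P (2 * j + 2)) := by
    rintro ⟨i, i'⟩
    have hi := i.2
    have hi' := i'.2
    have hmem : W ℓ (cT n m i (k₁ + i')) (2 * (k₁ + k₂)) ∈ V.lang := by
      rw [hL]
      refine ⟨⟨i, hi, ?_⟩, ⟨i', hi', ?_⟩⟩
      · rw [cT_even, cT_odd, if_pos (Or.inl rfl), if_pos (Or.inl rfl)]
        exact bigB_le _ _
      · rw [cT_even, cT_odd, if_pos (Or.inr rfl), if_pos (Or.inr rfl)]
        exact bigB_le _ _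
    obtain ⟨ρ, hρ1, r, hρ2, hρ3⟩ := hmem
    obtain ⟨P, R, hB, hP0, hPr, hcat⟩ := blk_of_run (2 * (k₁ + k₂)) hρ2 hρ1
    have hpump : ∀ j < k₁ + k₂, j ≠ i.1 → j ≠ k₁ + i'.1 →
        Pump (P (2 * j)) (R (2 * j)) (P (2 * j + 1)) ∧
        Pump (P (2 * j + 1)) (R (2 * j + 1)) (P (2 * j + 2)) := by
      intro j hj h1 h2
      apply hlen (k₁ + k₂) _ P R hB hP0 _ j hj
      · rw [cT_even, cT_odd, if_neg (by omega), if_neg (by omega)]
        exact ⟨rfl, rfl⟩
      · intro j' _
        rw [cT_even, cT_odd]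
        by_cases h : j' = i.1 ∨ j' = k₁ + i'.1
        · rw [if_pos h, if_pos h]; exact Or.inr ⟨rfl, rfl⟩
        · rw [if_neg h, if_neg h]; exact Or.inl ⟨rfl, rfl⟩
    obtain ⟨P', R', hB', hP0', hPm', hpump'⟩ := blk_pump (c' := cB n m) hB (by
      intro x hx
      obtain ⟨j, rfl | rfl⟩ : ∃ j, x = 2 * j ∨ x = 2 * j + 1 := ⟨x / 2, by omega⟩
      · rw [cT_even, cB_even]
        by_cases h : j = i.1 ∨ j = k₁ + i'.1
        · rw [if_pos h]; exact Or.inl rfl
        · rw [if_neg h]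
          right
          push Not at h
          refine ⟨(hpump j (by omega) h.1 h.2).1, by unfold bigA; omega, ?_⟩
          unfold bigA
          rw [Nat.add_sub_cancel_left]
          exact Dvd.intro _ rfl
      · rw [cT_odd, cB_odd]
        by_cases h : j = i.1 ∨ j = k₁ + i'.1
        · rw [if_pos h]; exact Or.inl rfl
        · rw [if_neg h]
          right
          push Not at h
          refine ⟨(hpump j (by omega) h.1 h.2).2, by unfold bigB; omega, ?_⟩
          unfold bigB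
          rw [Nat.add_sub_cancel_left])
    obtain ⟨h1, h2⟩ := blk_run hB'
    rw [hP0', hP0] at h1
    have hF : (P' (2 * (k₁ + k₂))).1 ∈ V.F := by rw [hPm', hPr]; exact hρ3
    refine ⟨cat R' (2 * (k₁ + k₂)), P', R', ⟨h2, _, h1, hF⟩, hB', by rw [hP0', hP0], hF, rfl, ?_⟩
    intro j hj h3 h4
    exact hpump' (2 * j + 1) (by omega) (hpump j hj h3 h4).2
  choose ρ P R hacc hBlk hP0 hPF hcat hpump using hrun
  -- the runs are pairwise distinct
  have hinj : Function.Injective ρ := by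
    intro s t hst
    by_contra hne
    have huniq := blk_unique (hBlk s) (hBlk t) ((hP0 s).trans (hP0 t).symm)
      ((hcat s).trans (hst.trans (hcat t).symm))
    -- pumpable `b`-blocks
    have hboth : ∀ j < k₁ + k₂, ¬ ((j = s.1.1 ∨ j = k₁ + s.2.1) ∧ (j = t.1.1 ∨ j = k₁ + t.2.1)) →
        Pump (P s (2 * j + 1)) (R s (2 * j + 1)) (P s (2 * j + 2)) := by
      intro j hj h
      rw [not_and_or] at h
      rcases h with h | h
      · push Not at h
        exact hpump s j hj h.1 h.2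
      · push Not at h
        have h1 := hpump t j hj h.1 h.2
        have h2 := huniq.2 (2 * j + 1) (by omega)
        have h3 : P s (2 * j + 2) = P t (2 * j + 2) := by
          by_cases h4 : 2 * j + 2 < 2 * (k₁ + k₂)
          · exact (huniq.2 _ h4).1
          · have : 2 * j + 2 = 2 * (k₁ + k₂) := by omega
            rw [this]; exact huniq.1
        rw [h2.1, h2.2, h3]
        exact h1
    -- pump a set of `b`-blocks
    have hpumpset : ∀ D : Set ℕ, (∀ j ∈ D, j < k₁ + k₂ →
        Pump (P s (2 * j + 1)) (R s (2 * j + 1)) (P s (2 * j + 2))) →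
        ∃ c : ℕ → ℕ, W ℓ c (2 * (k₁ + k₂)) ∈ V.lang ∧ ∀ j ∈ D, c (2 * j) < c (2 * j + 1) := by
      classical
      intro D hD
      let c : ℕ → ℕ := fun x => if x % 2 = 0 then bigA (n (x / 2)) (m (x / 2)) else
        if x / 2 ∈ D then bigB (m (x / 2)) +
          (bigB (m (x / 2))).factorial * (bigA (n (x / 2)) (m (x / 2)) + 1) else bigB (m (x / 2))
      have hce : ∀ j, c (2 * j) = bigA (n j) (m j) := by
        intro j
        have h1 : 2 * j / 2 = j := by omega
        have h2 : 2 * j % 2 = 0 := by omega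
        simp [c, h1, h2]
      have hco : ∀ j, c (2 * j + 1) = if j ∈ D then bigB (m j) +
          (bigB (m j)).factorial * (bigA (n j) (m j) + 1) else bigB (m j) := by
        intro j
        have h1 : (2 * j + 1) / 2 = j := by omega
        have h2 : (2 * j + 1) % 2 = 1 := by omega
        simp [c, h1, h2]
      refine ⟨c, ?_, ?_⟩
      · obtain ⟨P', R', hB', hP0', hPm', _⟩ := blk_pump (c' := c) (hBlk s) (by
          intro x hx
          obtain ⟨j, rfl | rfl⟩ : ∃ j, x = 2 * j ∨ x = 2 * j + 1 := ⟨x / 2, by omega⟩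
          · left; rw [hce, cB_even]
          · rw [hco, cB_odd]
            by_cases h : j ∈ D
            · rw [if_pos h]
              right
              refine ⟨hD j h (by omega), by omega, ?_⟩
              rw [Nat.add_sub_cancel_left]
              exact Dvd.intro _ rfl
            · rw [if_neg h]; exact Or.inl rfl)
        obtain ⟨h1, h2⟩ := blk_run hB'
        rw [hP0', hP0 s] at h1
        exact ⟨_, h2, _, h1, by rw [hPm']; exact hPF s⟩
      · intro j hj
        rw [hce, hco, if_pos hj]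
        have := Nat.factorial_pos (bigB (m j))
        nlinarith [Nat.zero_le (bigA (n j) (m j)), Nat.zero_le (bigB (m j))]
    have h1 := s.1.2
    have h2 := s.2.2
    have h3 := t.1.2
    have h4 := t.2.2
    by_cases h5 : s.1 = t.1
    · have h6 : s.2.1 ≠ t.2.1 := by
        intro h6
        exact hne (Prod.ext h5 (Fin.ext h6))
      obtain ⟨c, hc1, hc2⟩ := hpumpset {j | k₁ ≤ j} (by
        intro j hj hj'
        apply hboth j hj'
        simp only [Set.mem_setOf_eq] at hj
        omega)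
      rw [hL] at hc1
      obtain ⟨_, j, hj, hj'⟩ := hc1
      have := hc2 (k₁ + j) (by simp)
      omega
    · have h6 : s.1.1 ≠ t.1.1 := fun h => h5 (Fin.ext h)
      obtain ⟨c, hc1, hc2⟩ := hpumpset {j | j < k₁} (by
        intro j hj hj'
        apply hboth j hj'
        simp only [Set.mem_setOf_eq] at hj
        omega)
      rw [hL] at hc1
      obtain ⟨⟨j, hj, hj'⟩, _⟩ := hc1
      have := hc2 j hj
      omega
  have hcard : ((Set.range ρ).encard : ℕ∞) = (k₁ * k₂ : ℕ) := by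
    rw [← Set.image_univ, hinj.encard_image, Set.encard_univ]
    simp
  have hle : (Set.range ρ).encard ≤ (V.Acc (W ℓ (cB n m) (2 * (k₁ + k₂)))).encard := by
    apply Set.encard_le_encard
    rintro _ ⟨i, rfl⟩
    exact hacc i
  have := hle.trans (hamb _)
  rw [hcard] at this
  exact_mod_cast this

end Pool.Agent.H313VA
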