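import Mathlib
import Pool.Agent.H313VA.Lower

set_option autoImplicit false

namespace Pool.Agent.H313VA

variable {A : Type}

/-- The automaton that guesses `i < k` with the first letter and then counts with `eff i`. -/
def guess (A : Type) [Finite A] (k : ℕ) (eff : Fin k → A → ℤ) : VASS A where
  d := 1
  Q := Option (Fin k)
  finQ := inferInstance
  T := {t | ∃ i : Fin k, (t.1 = none ∨ t.1 = some i) ∧ t.2.2.1 = (fun _ => eff i t.2.1) ∧
    t.2.2.2 = some i}
  finT := by
    apply (Set.finite_range fun x : Option (Fin k) × A × Fin k =>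
      ((x.1, x.2.1, fun _ => eff x.2.2 x.2.1, some x.2.2) :
        Option (Fin k) × A × (Fin 1 → ℤ) × Option (Fin k))).subset
    rintro ⟨q, a, u, q'⟩ ⟨i, _, h2, h3⟩
    refine ⟨(q, a, i), ?_⟩
    dsimp only at h2 h3 ⊢
    rw [h2, h3]
  q₀ := none
  c₀ := 0
  F := Set.univ

variable [Finite A] {k : ℕ} (eff : Fin k → A → ℤ)

/-- the run that guesses `i` -/
def path (i : Fin k) : Option (Fin k) → List A → List (guess A k eff).Tr
  | _, [] => []
  | q, a :: w => ((q, a, (fun _ => eff i a), some i) : (guess A k eff).Tr) ::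
      path i (some i) w

/-- all prefixes keep the counter nonnegative -/
def ok (e : A → ℤ) : ℤ → List A → Prop
  | _, [] => True
  | v, a :: w => 0 ≤ v + e a ∧ ok e (v + e a) w

theorem run_some (i : Fin k) (c : Fin 1 → ℕ) (ρ : List (guess A k eff).Tr)
    (r : (guess A k eff).Cfg) (h : (guess A k eff).Run (some i, c) ρ r) :
    ρ = path eff i (some i) ((guess A k eff).lab ρ) ∧ ok (eff i) (c 0) ((guess A k eff).lab ρ) := by
  induction ρ generalizing c with
  | nil => exact ⟨rfl, trivial⟩
  | cons t ρ ih =>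
    obtain ⟨⟨j, h1, h2, h3⟩, h4, c', h5, h6⟩ := h
    have hj : j = i := by
      rcases h1 with h1 | h1
      · rw [h1] at h4; exact absurd h4 (by simp)
      · rw [h1] at h4; exact Option.some.inj h4
    subst hj
    rw [h3] at h6
    obtain ⟨h7, h8⟩ := ih c' h6
    have h9 : (c' (0 : Fin 1) : ℤ) = c (0 : Fin 1) + eff j t.2.1 := by
      have := h5 (0 : Fin 1)
      rw [h2] at this
      exact this
    refine ⟨?_, ?_⟩
    · change t :: ρ = (some j, t.2.1, (fun _ => eff j t.2.1), some j) ::
        path eff j (some j) ((guess A k eff).lab ρ)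
      rw [← h7]
      congr 1
      apply Prod.ext
      · exact h4
      · apply Prod.ext
        · rfl
        · exact Prod.ext h2 h3
    · change 0 ≤ (c 0 : ℤ) + eff j t.2.1 ∧ ok (eff j) (c 0 + eff j t.2.1) ((guess A k eff).lab ρ)
      rw [← h9]
      exact ⟨Int.natCast_nonneg _, h8⟩

theorem run_none (hk : 0 < k) (c : Fin 1 → ℕ) (ρ : List (guess A k eff).Tr)
    (r : (guess A k eff).Cfg) (h : (guess A k eff).Run (none, c) ρ r) :
    ∃ i, ρ = path eff i none ((guess A k eff).lab ρ) ∧
      ok (eff i) (c 0) ((guess A k eff).lab ρ) := by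
  cases ρ with
  | nil => exact ⟨⟨0, hk⟩, rfl, trivial⟩
  | cons t ρ =>
    obtain ⟨⟨j, _, h2, h3⟩, h4, c', h5, h6⟩ := h
    rw [h3] at h6
    obtain ⟨h7, h8⟩ := run_some eff j c' ρ r h6
    have h9 : (c' (0 : Fin 1) : ℤ) = c (0 : Fin 1) + eff j t.2.1 := by
      have := h5 (0 : Fin 1)
      rw [h2] at this
      exact this
    refine ⟨j, ?_, ?_⟩
    · change t :: ρ = (none, t.2.1, (fun _ => eff j t.2.1), some j) ::
        path eff j (some j) ((guess A k eff).lab ρ)
      rw [← h7]
      congr 1
      apply Prod.ext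
      · exact h4
      · apply Prod.ext
        · rfl
        · exact Prod.ext h2 h3
    · change 0 ≤ (c 0 : ℤ) + eff j t.2.1 ∧ ok (eff j) (c 0 + eff j t.2.1) ((guess A k eff).lab ρ)
      rw [← h9]
      exact ⟨Int.natCast_nonneg _, h8⟩

theorem path_run (i : Fin k) (q : Option (Fin k)) (hq : q = none ∨ q = some i) (c : Fin 1 → ℕ)
    (w : List A) (h : ok (eff i) (c 0) w) :
    (∃ r, (guess A k eff).Run (q, c) (path eff i q w) r) ∧
      (guess A k eff).lab (path eff i q w) = w := by
  induction w generalizing q c with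
  | nil => exact ⟨⟨_, rfl⟩, rfl⟩
  | cons a w ih =>
    obtain ⟨h1, h2⟩ := h
    let c' : Fin 1 → ℕ := fun _ => ((c 0 : ℤ) + eff i a).toNat
    have hc' : ((c' 0 : ℕ) : ℤ) = c 0 + eff i a := Int.toNat_of_nonneg h1
    obtain ⟨⟨r, h3⟩, h4⟩ := ih (some i) (Or.inr rfl) c' (by rw [hc']; exact h2)
    refine ⟨⟨r, ⟨i, hq, rfl, rfl⟩, rfl, c', ?_, h3⟩, ?_⟩
    · intro x
      have hx : x = (0 : Fin 1) := Subsingleton.elim (α := Fin 1) _ _
      rw [hx]
      exact hc'
    · change a :: (guess A k eff).lab (path eff i (some i) w) = a :: w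
      rw [h4]

theorem guess_ambiguous (hk : 0 < k) : (guess A k eff).Ambiguous k := by
  intro w
  have hsub : (guess A k eff).Acc w ⊆ Set.range fun i : Fin k => path eff i none w := by
    rintro ρ ⟨h1, r, h2, _⟩
    obtain ⟨i, h3, _⟩ := run_none eff hk _ ρ r h2
    rw [h1] at h3
    exact ⟨i, h3.symm⟩
  refine (Set.encard_le_encard hsub).trans ?_
  rw [← Set.image_univ]
  refine (Set.encard_image_le _ _).trans ?_
  rw [Set.encard_univ]
  simp

theorem guess_lang (hk : 0 < k) (w : List A) :
    w ∈ (guess A k eff).lang ↔ ∃ i, ok (eff i) 0 w := by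
  constructor
  · rintro ⟨ρ, h1, r, h2, _⟩
    obtain ⟨i, _, h3⟩ := run_none eff hk _ ρ r h2
    rw [h1] at h3
    exact ⟨i, by simpa [guess] using h3⟩
  · rintro ⟨i, hi⟩
    obtain ⟨⟨r, h1⟩, h2⟩ := path_run eff i none (Or.inl rfl) (fun _ => 0) w (by simpa using hi)
    exact ⟨_, h2, r, h1, Set.mem_univ _⟩

/-! ### block words -/

theorem ok_append (e : A → ℤ) (v : ℤ) (u w : List A) :
    ok e v (u ++ w) ↔ ok e v u ∧ ok e (v + (u.map e).sum) w := by
  induction u generalizing v with
  | nil => simp [ok]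
  | cons a u ih =>
    simp only [List.cons_append, ok, ih, List.map_cons, List.sum_cons, and_assoc, add_assoc]

theorem ok_replicate (e : A → ℤ) (v : ℤ) (hv : 0 ≤ v) (n : ℕ) (a : A) :
    ok e v (List.replicate n a) ↔ 0 ≤ v + n * e a := by
  induction n generalizing v with
  | zero => simp [ok, hv]
  | succ n ih =>
    rw [List.replicate_succ, ok]
    push_cast
    constructor
    · rintro ⟨h1, h2⟩
      have := (ih _ h1).1 h2
      nlinarith
    · intro h
      have h1 : 0 ≤ v + e a := by
        rcases le_or_gt 0 (e a) with h2 | h2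
        · omega
        · nlinarith [Int.natCast_nonneg n]
      refine ⟨h1, (ih _ h1).2 ?_⟩
      nlinarith

theorem sum_W (ℓ : ℕ → A) (e : A → ℤ) (c : ℕ → ℕ) (m : ℕ) :
    ((W ℓ c m).map e).sum = ∑ y ∈ Finset.range m, (c y : ℤ) * e (ℓ y) := by
  induction m with
  | zero => simp [W]
  | succ m ih =>
    rw [W_succ, List.map_append, List.sum_append, ih, Finset.sum_range_succ]
    simp

theorem ok_W (ℓ : ℕ → A) (e : A → ℤ) (c : ℕ → ℕ) (m : ℕ) :
    ok e 0 (W ℓ c m) ↔ ∀ x ≤ m, 0 ≤ ∑ y ∈ Finset.range x, (c y : ℤ) * e (ℓ y) := by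
  induction m with
  | zero =>
    constructor
    · intro _ x hx
      have : x = 0 := by omega
      subst this
      simp
    · intro _; simp [W, ok]
  | succ m ih =>
    rw [W_succ, ok_append, ih, sum_W]
    constructor
    · rintro ⟨h1, h2⟩ x hx
      by_cases h : x ≤ m
      · exact h1 x h
      · have : x = m + 1 := by omega
        subst this
        have h3 := h1 m le_rfl
        rw [zero_add, ok_replicate _ _ h3] at h2
        rwa [Finset.sum_range_succ]
    · intro h
      refine ⟨fun x hx => h x (by omega), ?_⟩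
      have h3 := h m (by omega)
      rw [zero_add, ok_replicate _ _ h3]
      have := h (m + 1) le_rfl
      rwa [Finset.sum_range_succ] at this

/-- letter effects that single out the pair `j` -/
theorem ok_pair (ℓ : ℕ → A) (e : A → ℤ) (c : ℕ → ℕ) (K j : ℕ) (hj : j < K)
    (h1 : e (ℓ (2 * j)) = 1) (h2 : e (ℓ (2 * j + 1)) = -1)
    (h3 : ∀ x < 2 * K, x ≠ 2 * j → x ≠ 2 * j + 1 → e (ℓ x) = 0) :
    ok e 0 (W ℓ c (2 * K)) ↔ c (2 * j + 1) ≤ c (2 * j) := by
  have hsum : ∀ x ≤ 2 * K, ∑ y ∈ Finset.range x, (c y : ℤ) * e (ℓ y) =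
      (if 2 * j < x then (c (2 * j) : ℤ) else 0) -
        (if 2 * j + 1 < x then (c (2 * j + 1) : ℤ) else 0) := by
    intro x hx
    induction x with
    | zero => simp
    | succ x ih =>
      rw [Finset.sum_range_succ, ih (by omega)]
      by_cases hx1 : x = 2 * j
      · subst hx1
        rw [h1, if_neg (by omega), if_neg (by omega), if_pos (by omega), if_neg (by omega)]
        ring
      · by_cases hx2 : x = 2 * j + 1
        · subst hx2
          rw [h2, if_pos (by omega), if_neg (by omega), if_pos (by omega), if_pos (by omega)]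
          ring
        · rw [h3 x (by omega) hx1 hx2]
          by_cases hx3 : x < 2 * j
          · rw [if_neg (by omega), if_neg (by omega), if_neg (by omega), if_neg (by omega)]
            ring
          · rw [if_pos (by omega), if_pos (by omega), if_pos (by omega), if_pos (by omega)]
            ring
  rw [ok_W]
  constructor
  · intro h
    have := h (2 * K) le_rfl
    rw [hsum _ le_rfl, if_pos (by omega), if_pos (by omega)] at this
    omega
  · intro h x hx
    rw [hsum x hx]
    by_cases h4 : 2 * j + 1 < x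
    · rw [if_pos (by omega), if_pos h4]; omega
    · rw [if_neg h4]
      split_ifs <;> omega

end Pool.Agent.H313VA
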